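import Pool.Agent.G02.StmtsR

set_option autoImplicit false

/-!
# G02, row DLT: the discriminant
-/

namespace Pool.Agent.G02.H91

/-- DLT -/
theorem dlt : DltStmt := by
  intro R _ _ _ W e a b h
  obtain ⟨h1, h2, h3⟩ := h
  have h4 : (4 : R) * W.Δ = -W.b₂ ^ 2 * (W.b₂ * W.b₆ - W.b₄ ^ 2) - 32 * W.b₄ ^ 3 -
      108 * W.b₆ ^ 2 + 36 * W.b₂ * W.b₄ * W.b₆ := by
    unfold WeierstrassCurve.Δ
    linear_combination (-W.b₂ ^ 2) * W.b_relation
  rw [h1, h2, h3] at h4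
  have h5 : (4 : R) ≠ 0 := by exact_mod_cast (by norm_num : (4 : ℕ) ≠ 0)
  apply mul_left_cancel₀ h5
  rw [h4]
  ring

end Pool.Agent.G02.H91
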